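import Mathlib
import Pool.Agent.H8.WD

universe u

open Cardinal Ordinal

namespace Pool.Agent.Results.MP_9a42a6_lc.Triple

/-- The ordinals below the cardinal `κ`. -/
abbrev Below (κ : Cardinal.{u}) : Type (u + 1) := Set.Iio κ.ord

/-- `Δ(x, y) = i`. -/
def IsDelta {κ : Cardinal.{u}} (x y : Below κ → Bool) (i : Below κ) : Prop :=
  x i ≠ y i ∧ ∀ j, j < i → x j = y j

/-- A colouring of unordered pairs (a symmetric function) is almost `Δ`-regressive. -/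
def AlmostRegressive {κ : Cardinal.{u}}
    (c : (Below κ → Bool) → (Below κ → Bool) → Below κ) : Prop :=
  (∀ x y, c x y = c y x) ∧
    ∃ μ : Cardinal.{u}, μ < κ ∧ ∀ x y i, IsDelta x y i → (c x y).1 < max i.1 μ.ord

/-- `Y` is monochromatic. -/
def Mono {κ : Cardinal.{u}} (c : (Below κ → Bool) → (Below κ → Bool) → Below κ)
    (Y : Set (Below κ → Bool)) : Prop :=
  ∃ γ, ∀ x ∈ Y, ∀ y ∈ Y, x ≠ y → c x y = γ

end Pool.Agent.Results.MP_9a42a6_lc.Triple

open Pool.Agent.Results.MP_9a42a6_lc.Triple in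
theorem Pool.Agent.Results.MP_9a42a6_lc.Triple.result (κ : Cardinal.{u}) (hunc : ℵ₀ < κ)
    (hpow : ∀ μ : Cardinal.{u}, μ < κ → (2 : Cardinal.{u}) ^ μ < (2 : Cardinal.{u}) ^ κ)
    (c : (Below κ → Bool) → (Below κ → Bool) → Below κ) (hc : AlmostRegressive c) :
    ∃ Y : Set (Below κ → Bool), Mono c Y ∧ Y.encard = 3 := by
  obtain ⟨hs, μ, h1, h2⟩ := hc
  obtain ⟨Y, y1, y2⟩ := Pool.Agent.H8.WD.main κ hunc hpow c hs ⟨μ.ord, ord_lt_ord.2 h1⟩
    fun x y i a b => by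
      rcases lt_max_iff.1 (h2 x y i ⟨a, b⟩) with h | h
      · exact lt_max_of_lt_left h
      · exact lt_max_of_lt_right h
  have hinf : Y.Infinite := fun h => y1 h.countable
  obtain ⟨Z, z1, z2⟩ := Set.exists_subset_encard_eq (s := Y) (k := 3) (by simp [hinf.encard_eq])
  obtain ⟨γ, hγ⟩ := y2
  exact ⟨Z, ⟨γ, fun x hx y hy => hγ x (z1 hx) y (z1 hy)⟩, z2⟩
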